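import Mathlib

/-!
# The combinatorial inequality
-/

set_option autoImplicit false

open Finset

namespace Pool.Agent.R972.PC

/-- the index set: `m` blocks with two leaves -/
abbrev Ix (m : ℕ) := Fin m × Bool

/-- the two-level cost -/
noncomputable def uu {m : ℕ} (y z : Ix m) : ℝ := if y = z then 0 else if y.1 = z.1 then 1 / 2 else 1

variable {m : ℕ}

lemma uu_nonneg (y z : Ix m) : 0 ≤ uu y z := by
  unfold uu; split_ifs <;> norm_num

lemma uu_self (y : Ix m) : uu y y = 0 := by simp [uu]

lemma uu_symm (y z : Ix m) : uu y z = uu z y := by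
  unfold uu
  by_cases h : y = z
  · rw [if_pos h, if_pos h.symm]
  · rw [if_neg h, if_neg (Ne.symm h)]
    by_cases h2 : y.1 = z.1
    · rw [if_pos h2, if_pos h2.symm]
    · rw [if_neg h2, if_neg (Ne.symm h2)]

lemma uu_ge {y z : Ix m} (h : y ≠ z) : 1 / 2 ≤ uu y z := by
  unfold uu; rw [if_neg h]; split_ifs <;> norm_num

lemma uu_one {y z : Ix m} (h : y.1 ≠ z.1) : uu y z = 1 := by
  unfold uu
  rw [if_neg (fun h' => h (by rw [h'])), if_neg h]

lemma uu_half {y z : Ix m} (h : y ≠ z) (h2 : y.1 = z.1) : uu y z = 1 / 2 := by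
  unfold uu; rw [if_neg h, if_pos h2]

/-- the sum over the ordered pairs in different blocks -/
noncomputable def DD (x : Ix m → Ix m) : ℝ := ∑ a : Ix m, ∑ b : Ix m, if a.1 ≠ b.1 then uu (x a) (x b) else 0

/-- the sum over the blocks -/
noncomputable def SS (x : Ix m → Ix m) : ℝ := ∑ B : Fin m, uu (x (B, false)) (x (B, true))

/-- the number of indices which stay in their block -/
noncomputable def NN (x : Ix m → Ix m) : ℝ := ∑ a : Ix m, if (x a).1 = a.1 then 1 else 0

lemma card_block (A : Fin m) : (univ.filter fun b : Ix m => b.1 = A).card = 2 := by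
  have h : (univ.filter fun b : Ix m => b.1 = A) = {(A, false), (A, true)} := by
    ext ⟨b, t⟩
    simp only [mem_filter, mem_univ, true_and, mem_insert, mem_singleton, Prod.mk.injEq]
    cases t <;> simp
  rw [h, card_pair (by simp)]

/-- few indices agree -/
lemma regime1 (x : Ix m → Ix m) {N0 : ℕ}
    (hN : ∀ c : Ix m, (univ.filter fun b => x b = c).card ≤ N0) :
    (2 * m : ℝ) * (((2 * m : ℝ) - N0) / 2 - 1) ≤ DD x := by
  have hcard : (univ : Finset (Ix m)).card = 2 * m := by simp [mul_comm]
  have h1 : ∀ a : Ix m, ((2 * m : ℝ) - N0) / 2 - 1 ≤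
      ∑ b : Ix m, if a.1 ≠ b.1 then uu (x a) (x b) else 0 := by
    intro a
    have h2 : ∀ b : Ix m, (1 / 2 : ℝ) - (if x b = x a then 1 / 2 else 0) -
        (if b.1 = a.1 then 1 / 2 else 0) ≤ if a.1 ≠ b.1 then uu (x a) (x b) else 0 := by
      intro b
      by_cases h3 : a.1 = b.1
      · rw [if_pos h3.symm, if_neg (not_not.2 h3)]
        split_ifs <;> norm_num
      · rw [if_neg (Ne.symm h3), if_pos h3]
        by_cases h4 : x b = x a
        · rw [if_pos h4, h4, uu_self]; norm_num
        · rw [if_neg h4]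
          have := uu_ge (Ne.symm h4)
          linarith
    refine le_trans ?_ (sum_le_sum fun b _ => h2 b)
    rw [sum_sub_distrib, sum_sub_distrib, sum_const, hcard, nsmul_eq_mul, ← sum_filter,
      ← sum_filter, sum_const, sum_const, card_block, nsmul_eq_mul, nsmul_eq_mul]
    have h5 : (((univ.filter fun b => x b = x a).card : ℕ) : ℝ) ≤ N0 := by exact_mod_cast hN (x a)
    push_cast
    linarith
  unfold DD
  refine le_trans ?_ (sum_le_sum fun a _ => h1 a)
  rw [sum_const, hcard, nsmul_eq_mul]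
  push_cast
  exact le_rfl

/-- many indices agree -/
lemma regime2 (x : Ix m → Ix m) (c : Ix m) :
    2 * (((univ.filter fun b => x b = c).card : ℝ) - 2) *
      (uu (x (c.1, false)) c + uu (x (c.1, true)) c) ≤ DD x := by
  have h1 : ∀ a b : Ix m,
      (if a.1 = c.1 then (if b.1 ≠ c.1 ∧ x b = c then uu (x a) c else 0) else 0) +
      (if b.1 = c.1 then (if a.1 ≠ c.1 ∧ x a = c then uu (x b) c else 0) else 0) ≤
      if a.1 ≠ b.1 then uu (x a) (x b) else 0 := by
    intro a b
    by_cases ha : a.1 = c.1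
    · by_cases hb : b.1 = c.1
      · rw [if_pos ha, if_pos hb, if_neg (by simp [hb]), if_neg (by simp [ha]),
          if_neg (by simp [ha, hb]), add_zero]
      · rw [if_pos ha, if_neg hb, if_pos (show a.1 ≠ b.1 by rw [ha]; exact Ne.symm hb), add_zero]
        by_cases h2 : x b = c
        · rw [if_pos ⟨hb, h2⟩, h2]
        · rw [if_neg (by tauto)]; exact uu_nonneg _ _
    · by_cases hb : b.1 = c.1
      · rw [if_neg ha, if_pos hb, if_pos (show a.1 ≠ b.1 by rw [hb]; exact ha), zero_add]
        by_cases h2 : x a = c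
        · rw [if_pos ⟨ha, h2⟩, h2, uu_symm]
        · rw [if_neg (by tauto)]; exact uu_nonneg _ _
      · rw [if_neg ha, if_neg hb, add_zero]
        split_ifs
        · exact uu_nonneg _ _
        · exact le_rfl
  set G : ℝ := ∑ a : Ix m, ∑ b : Ix m,
      (if a.1 = c.1 then (if b.1 ≠ c.1 ∧ x b = c then uu (x a) c else 0) else 0) with hG
  have h2 : G + G ≤ DD x := by
    have e : G = ∑ a : Ix m, ∑ b : Ix m,
      (if b.1 = c.1 then (if a.1 ≠ c.1 ∧ x a = c then uu (x b) c else 0) else 0) := by
      rw [hG, sum_comm]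
    calc G + G = G + ∑ a : Ix m, ∑ b : Ix m,
      (if b.1 = c.1 then (if a.1 ≠ c.1 ∧ x a = c then uu (x b) c else 0) else 0) := by rw [← e]
      _ = ∑ a : Ix m, ∑ b : Ix m,
        ((if a.1 = c.1 then (if b.1 ≠ c.1 ∧ x b = c then uu (x a) c else 0) else 0) +
        (if b.1 = c.1 then (if a.1 ≠ c.1 ∧ x a = c then uu (x b) c else 0) else 0)) := by
          simp only [sum_add_distrib, hG]
      _ ≤ DD x := sum_le_sum fun a _ => sum_le_sum fun b _ => h1 a b
  set K : ℕ := (univ.filter fun b : Ix m => b.1 ≠ c.1 ∧ x b = c).card with hK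
  have h3 : G = K * (uu (x (c.1, false)) c + uu (x (c.1, true)) c) := by
    have h4 : ∀ a : Ix m, (∑ b : Ix m,
        (if a.1 = c.1 then (if b.1 ≠ c.1 ∧ x b = c then uu (x a) c else 0) else 0)) =
        if a.1 = c.1 then K * uu (x a) c else 0 := by
      intro a
      by_cases ha : a.1 = c.1
      · simp only [if_pos ha]
        rw [← sum_filter, sum_const, nsmul_eq_mul]
      · simp only [if_neg ha, sum_const_zero]
    rw [hG, sum_congr rfl fun a _ => h4 a, ← sum_filter]
    have h5 : (univ.filter fun b : Ix m => b.1 = c.1) = {(c.1, false), (c.1, true)} := by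
      ext ⟨b, t⟩
      simp only [mem_filter, mem_univ, true_and, mem_insert, mem_singleton, Prod.mk.injEq]
      cases t <;> simp
    rw [h5, sum_pair (by simp)]
    ring
  have h4 : ((univ.filter fun b => x b = c).card : ℝ) - 2 ≤ K := by
    have h5 : (univ.filter fun b => x b = c) ⊆ (univ.filter fun b : Ix m => b.1 ≠ c.1 ∧ x b = c) ∪
        (univ.filter fun b : Ix m => b.1 = c.1) := by
      intro b hb
      simp only [mem_filter, mem_univ, true_and, mem_union] at hb ⊢
      by_cases h6 : b.1 = c.1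
      · exact Or.inr h6
      · exact Or.inl ⟨h6, hb⟩
    have h6 := (card_le_card h5).trans (card_union_le _ _)
    rw [card_block] at h6
    have h7 : ((univ.filter fun b => x b = c).card : ℝ) ≤ K + 2 := by exact_mod_cast h6
    linarith
  have h5 : 0 ≤ uu (x (c.1, false)) c + uu (x (c.1, true)) c :=
    add_nonneg (uu_nonneg _ _) (uu_nonneg _ _)
  calc 2 * (((univ.filter fun b => x b = c).card : ℝ) - 2) *
      (uu (x (c.1, false)) c + uu (x (c.1, true)) c) ≤ 2 * K *
      (uu (x (c.1, false)) c + uu (x (c.1, true)) c) := by gcongr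
    _ = G + G := by rw [h3]; ring
    _ ≤ DD x := h2

lemma block_cases {A : Fin m} {t : Bool} {p p' : Ix m} {S D N : ℝ} (hpne : p ≠ (A, false))
    (hpne' : p' ≠ (A, true)) (hS : uu p p' ≤ S)
    (hN : (if p.1 = A then (1 : ℝ) else 0) + (if p'.1 = A then 1 else 0) ≤ N)
    (h4 : 1979 / 2000 * (uu p (A, t) + uu p' (A, t)) ≤ 1 / 4000 * D) :
    1.978 ≤ 1 / 2 * S + 1 / 4000 * D + 5 / 8 * N := by
  have e1 : p.1 = A → p = (A, true) := by
    intro h5
    rcases hpp : p with ⟨q, t⟩
    rw [hpp] at h5 hpne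
    simp only at h5
    subst h5
    cases t
    · exact absurd rfl hpne
    · rfl
  have e2 : p'.1 = A → p' = (A, false) := by
    intro h5
    rcases hpp : p' with ⟨q, t⟩
    rw [hpp] at h5 hpne'
    simp only at h5
    subst h5
    cases t
    · rfl
    · exact absurd rfl hpne'
  by_cases q1 : p.1 = A <;> by_cases q2 : p'.1 = A
  · have r1 := e1 q1
    have r2 := e2 q2
    rw [if_pos q1, if_pos q2] at hN
    have r3 : uu p p' = 1 / 2 := by
      rw [r1, r2]; exact uu_half (by simp) rfl
    have r4 : uu p (A, t) + uu p' (A, t) = 1 / 2 := by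
      rw [r1, r2]
      cases t
      · rw [uu_self, add_zero]; exact uu_half (by simp) rfl
      · rw [uu_self, zero_add]; exact uu_half (by simp) rfl
    rw [r4] at h4
    rw [r3] at hS
    linarith
  · rw [if_pos q1, if_neg q2] at hN
    have r3 : uu p p' = 1 := uu_one (by rw [q1]; exact Ne.symm q2)
    have r4 : uu p' (A, t) = 1 := uu_one q2
    have r5 := uu_nonneg p (A, t)
    rw [r3] at hS
    rw [r4] at h4
    linarith
  · rw [if_neg q1, if_pos q2] at hN
    have r3 : uu p p' = 1 := uu_one (by rw [q2]; exact q1)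
    have r4 : uu p (A, t) = 1 := uu_one q1
    have r5 := uu_nonneg p' (A, t)
    rw [r3] at hS
    rw [r4] at h4
    linarith
  · have r4 : uu p (A, t) = 1 := uu_one q1
    have r5 : uu p' (A, t) = 1 := uu_one q2
    have r6 := uu_nonneg p p'
    rw [if_neg q1, if_neg q2] at hN
    rw [r4, r5] at h4
    linarith

/-- **the pointwise inequality** -/
theorem key (hm : m = 1000) (x : Ix m → Ix m) (hx : ∀ a, x a ≠ a) :
    1.978 ≤ 1 / 2 * SS x + 1 / 4000 * DD x + 5 / 8 * NN x := by
  have hne : (univ : Finset (Ix m)).Nonempty := by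
    exact ⟨(⟨0, by omega⟩, false), mem_univ _⟩
  obtain ⟨c, -, hc⟩ := exists_max_image univ (fun c => (univ.filter fun b => x b = c).card) hne
  have hS0 : 0 ≤ SS x := sum_nonneg fun B _ => uu_nonneg _ _
  have hN0 : 0 ≤ NN x := sum_nonneg fun a _ => by split_ifs <;> norm_num
  set N0 := (univ.filter fun b => x b = c).card with hN0def
  have hm' : (m : ℝ) = 1000 := by rw [hm]; norm_num
  rcases le_or_gt N0 1980 with h | h
  · have h1 := regime1 x (fun c' => hc c' (mem_univ _))
    have h2 : (N0 : ℝ) ≤ 1980 := by exact_mod_cast h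
    rw [hm'] at h1
    linarith
  · have h1 := regime2 x c
    rw [← hN0def] at h1
    have h2 : (1981 : ℝ) ≤ N0 := by exact_mod_cast h
    have hSge : uu (x (c.1, false)) (x (c.1, true)) ≤ SS x :=
      single_le_sum (f := fun B : Fin m => uu (x (B, false)) (x (B, true)))
        (fun B _ => uu_nonneg _ _) (mem_univ c.1)
    have hNge : (if (x (c.1, false)).1 = c.1 then (1 : ℝ) else 0) +
        (if (x (c.1, true)).1 = c.1 then 1 else 0) ≤ NN x := by
      have h3 : ∑ a ∈ ({(c.1, false), (c.1, true)} : Finset (Ix m)),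
          (if (x a).1 = a.1 then (1 : ℝ) else 0) ≤ NN x :=
        sum_le_sum_of_subset_of_nonneg (subset_univ _) fun a _ _ => by split_ifs <;> norm_num
      rwa [sum_pair (by simp)] at h3
    have hu0 : 0 ≤ uu (x (c.1, false)) c + uu (x (c.1, true)) c :=
      add_nonneg (uu_nonneg _ _) (uu_nonneg _ _)
    have h4 : 1979 / 2000 * (uu (x (c.1, false)) c + uu (x (c.1, true)) c) ≤ 1 / 4000 * DD x := by
      nlinarith
    exact block_cases (A := c.1) (t := c.2) (hx _) (hx _) hSge hNge h4

end Pool.Agent.R972.PC
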