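import Mathlib

/-!
# Pairwise coupling ratios for power costs on the line: definitions
-/

set_option autoImplicit false

open MeasureTheory Set
open scoped NNReal ENNReal

namespace Pool.Agent.R972.PC

/-- Lebesgue measure on `[0,1]`. -/
noncomputable def leb : Measure ℝ := volume.restrict (Icc 0 1)

/-- The optimal transport cost `C*(P,Q) = inf E|X-Y|^q` over all couplings of `P` and `Q`. -/
noncomputable def Cstar (q : ℝ) (P Q : Measure ℝ) : ℝ≥0∞ :=
  ⨅ (π : Measure (ℝ × ℝ)) (_ : π.map Prod.fst = P ∧ π.map Prod.snd = Q),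
    ∫⁻ p, ENNReal.ofReal (|p.1 - p.2| ^ q) ∂π

/-- A coupling of all Borel probability measures on `ℝ`: Lebesgue measurable maps
`X P : [0,1] → ℝ` such that `X P` has law `P`. -/
structure IsCoupling (X : ProbabilityMeasure ℝ → ℝ → ℝ) : Prop where
  meas : ∀ P, AEMeasurable (X P) leb
  law : ∀ P : ProbabilityMeasure ℝ, leb.map (X P) = (P : Measure ℝ)

/-- The pairwise coupling ratio of a coupling: the infimum of all finite `r ≥ 1` such that
`E|X_P - X_Q|^q ≤ r C*(P,Q)` for all `P`, `Q` (`∞` if there is none). -/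
noncomputable def ratio (q : ℝ) (X : ProbabilityMeasure ℝ → ℝ → ℝ) : ℝ≥0∞ :=
  ⨅ (r : ℝ≥0) (_ : 1 ≤ r ∧ ∀ P Q : ProbabilityMeasure ℝ,
    ∫⁻ u, ENNReal.ofReal (|X P u - X Q u| ^ q) ∂leb ≤ r * Cstar q P Q), (r : ℝ≥0∞)

/-- The optimal pairwise coupling ratio `r*`. -/
noncomputable def optRatio (q : ℝ) : ℝ≥0∞ :=
  ⨅ (X : ProbabilityMeasure ℝ → ℝ → ℝ) (_ : IsCoupling X), ratio q X

end Pool.Agent.R972.PC
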