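import Pool.Agent.R972.PC.Defs
import Pool.Agent.R972.PC.Comb

/-!
# The optimal pairwise coupling ratio exceeds `2` for small `q`
-/

set_option autoImplicit false

open MeasureTheory Set
open scoped NNReal ENNReal

namespace Pool.Agent.R972.PC

/-- the number of blocks -/
@[irreducible] def mm : ℕ := 1000

lemma mm_eq : mm = 1000 := by unfold mm; rfl

lemma card_ix : (Finset.univ : Finset (Ix mm)).card = 2000 := by
  rw [Finset.card_univ, Fintype.card_prod, Fintype.card_fin, Fintype.card_bool, mm_eq]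

instance leb_prob : IsProbabilityMeasure leb := by
  refine ⟨?_⟩
  unfold leb
  rw [Measure.restrict_apply_univ, Real.volume_Icc]
  simp

/-- the positions of the points -/
noncomputable def pt (q : ℝ) (a : Ix mm) : ℝ :=
  2 * (a.1 : ℕ) + if a.2 then (1 / 2 : ℝ) ^ (1 / q) else 0

lemma del_bounds {q : ℝ} (hq : 0 < q) :
    0 < (1 / 2 : ℝ) ^ (1 / q) ∧ (1 / 2 : ℝ) ^ (1 / q) ≤ 1 :=
  ⟨Real.rpow_pos_of_pos (by norm_num) _, Real.rpow_le_one (by norm_num) (by norm_num)
    (by positivity)⟩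

lemma dist_same {q : ℝ} (hq : 0 < q) {a b : Ix mm} (h : a ≠ b) (h1 : a.1 = b.1) :
    |pt q a - pt q b| ^ q = 1 / 2 := by
  obtain ⟨h0, _⟩ := del_bounds hq
  have h2 : |pt q a - pt q b| = (1 / 2 : ℝ) ^ (1 / q) := by
    rcases a with ⟨A, s⟩
    rcases b with ⟨B, t⟩
    simp only at h1
    subst h1
    unfold pt
    cases s <;> cases t
    · exact absurd rfl h
    · simp only [Bool.false_eq_true, ite_false, ite_true]
      rw [show 2 * ((A : ℕ) : ℝ) + 0 - (2 * ((A : ℕ) : ℝ) + (1 / 2 : ℝ) ^ (1 / q)) =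
        -((1 / 2 : ℝ) ^ (1 / q)) by ring, abs_neg, abs_of_pos h0]
    · simp only [Bool.false_eq_true, ite_false, ite_true]
      rw [show 2 * ((A : ℕ) : ℝ) + (1 / 2 : ℝ) ^ (1 / q) - (2 * ((A : ℕ) : ℝ) + 0) =
        ((1 / 2 : ℝ) ^ (1 / q)) by ring, abs_of_pos h0]
    · exact absurd rfl h
  rw [h2, ← Real.rpow_mul (by norm_num), one_div_mul_cancel hq.ne', Real.rpow_one]

lemma dist_bounds {q : ℝ} (hq : 0 < q) {a b : Ix mm} (h1 : a.1 ≠ b.1) :
    1 ≤ |pt q a - pt q b| ∧ |pt q a - pt q b| ≤ 2000 := by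
  obtain ⟨h0, h0'⟩ := del_bounds hq
  set δ := (1 / 2 : ℝ) ^ (1 / q) with hδ
  have hs : ∀ s : Bool, 0 ≤ (if s then δ else 0) ∧ (if s then δ else 0) ≤ 1 := by
    intro s; cases s
    · simp
    · simpa using ⟨h0.le, h0'⟩
  have ha := hs a.2
  have hb := hs b.2
  have h2 : ((a.1 : ℕ) : ℝ) ≤ 999 := by
    have h9 : (a.1 : ℕ) < 1000 := lt_of_lt_of_eq a.1.2 mm_eq
    exact_mod_cast (by omega : (a.1 : ℕ) ≤ 999)
  have h3 : ((b.1 : ℕ) : ℝ) ≤ 999 := by
    have h9 : (b.1 : ℕ) < 1000 := lt_of_lt_of_eq b.1.2 mm_eq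
    exact_mod_cast (by omega : (b.1 : ℕ) ≤ 999)
  have h2' : (0 : ℝ) ≤ ((a.1 : ℕ) : ℝ) := Nat.cast_nonneg _
  have h3' : (0 : ℝ) ≤ ((b.1 : ℕ) : ℝ) := Nat.cast_nonneg _
  have hne : (a.1 : ℕ) ≠ (b.1 : ℕ) := fun h => h1 (Fin.ext h)
  unfold pt
  rcases lt_or_gt_of_ne hne with h | h
  · have h4 : ((a.1 : ℕ) : ℝ) + 1 ≤ ((b.1 : ℕ) : ℝ) := by exact_mod_cast h
    rw [abs_of_nonpos (by linarith)]
    constructor <;> linarith
  · have h4 : ((b.1 : ℕ) : ℝ) + 1 ≤ ((a.1 : ℕ) : ℝ) := by exact_mod_cast h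
    rw [abs_of_nonneg (by linarith)]
    constructor <;> linarith

lemma uu_le {q : ℝ} (hq : 0 < q) (a b : Ix mm) : uu a b ≤ |pt q a - pt q b| ^ q := by
  by_cases h : a = b
  · rw [h, uu_self]; positivity
  by_cases h1 : a.1 = b.1
  · rw [dist_same hq h h1, uu_half h h1]
  · rw [uu_one h1]
    exact Real.one_le_rpow (dist_bounds hq h1).1 hq.le

lemma le_uu {q : ℝ} (hq : 0 < q) (hq2 : (2000 : ℝ) ^ q ≤ 1.01) (a b : Ix mm) :
    |pt q a - pt q b| ^ q ≤ 1.01 * uu a b := by
  by_cases h : a = b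
  · rw [h, uu_self, sub_self, abs_zero, Real.zero_rpow hq.ne', mul_zero]
  by_cases h1 : a.1 = b.1
  · rw [dist_same hq h h1, uu_half h h1]; norm_num
  · rw [uu_one h1, mul_one]
    exact (Real.rpow_le_rpow (abs_nonneg _) (dist_bounds hq h1).2 hq.le).trans hq2

lemma pt_inj {q : ℝ} (hq : 0 < q) : Function.Injective (pt q) := by
  intro a b h
  by_contra hne
  have h1 := uu_le hq a b
  rw [h, sub_self, abs_zero, Real.zero_rpow hq.ne'] at h1
  have := uu_ge hne
  linarith

/-- the uniform law on all points but one -/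
noncomputable def pm (q : ℝ) (a : Ix mm) : Measure ℝ :=
  (1999 : ℝ≥0∞)⁻¹ • ∑ b ∈ Finset.univ.erase a, Measure.dirac (pt q b)

lemma card_erase (a : Ix mm) : ((Finset.univ.erase a).card : ℝ≥0∞) = 1999 := by
  rw [Finset.card_erase_of_mem (Finset.mem_univ _)]
  rw [card_ix]
  norm_num

instance pm_prob (q : ℝ) (a : Ix mm) : IsProbabilityMeasure (pm q a) := by
  refine ⟨?_⟩
  unfold pm
  rw [Measure.smul_apply, Measure.finsetSum_apply]
  simp only [measure_univ, Finset.sum_const, nsmul_eq_mul, mul_one, smul_eq_mul]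
  rw [card_erase]
  exact ENNReal.inv_mul_cancel (by norm_num) (by norm_num)

lemma Cstar_le {q : ℝ} (hq : 0 < q) {a b : Ix mm} (hab : a ≠ b) :
    Cstar q (pm q a) (pm q b) ≤ (1999 : ℝ≥0∞)⁻¹ * ENNReal.ofReal (|pt q a - pt q b| ^ q) := by
  set π : Measure (ℝ × ℝ) := (1999 : ℝ≥0∞)⁻¹ •
    (∑ c ∈ (Finset.univ.erase a).erase b, Measure.dirac (pt q c, pt q c) +
      Measure.dirac (pt q b, pt q a)) with hπ
  have h1 : π.map Prod.fst = pm q a := by
    rw [hπ, Measure.map_smul, Measure.map_add _ _ measurable_fst, Measure.map_finset_sum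
      measurable_fst.aemeasurable]
    simp only [Measure.map_dirac' measurable_fst]
    unfold pm
    congr 1
    rw [Finset.sum_erase_add _ _ (Finset.mem_erase.2 ⟨hab.symm, Finset.mem_univ b⟩)]
  have h2 : π.map Prod.snd = pm q b := by
    rw [hπ, Measure.map_smul, Measure.map_add _ _ measurable_snd, Measure.map_finset_sum
      measurable_snd.aemeasurable]
    simp only [Measure.map_dirac' measurable_snd]
    unfold pm
    congr 1
    rw [Finset.erase_right_comm, Finset.sum_erase_add _ _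
      (Finset.mem_erase.2 ⟨hab, Finset.mem_univ a⟩)]
  refine (iInf₂_le π ⟨h1, h2⟩).trans (le_of_eq ?_)
  rw [hπ, lintegral_smul_measure, lintegral_add_measure, lintegral_finsetSum_measure]
  have hm : Measurable fun p : ℝ × ℝ => ENNReal.ofReal (|p.1 - p.2| ^ q) := by fun_prop
  simp only [lintegral_dirac' _ hm, sub_self, abs_zero, Real.zero_rpow hq.ne',
    ENNReal.ofReal_zero, Finset.sum_const_zero, zero_add, smul_eq_mul]
  rw [abs_sub_comm]

lemma int3 {f g h : ℝ → ℝ} (hf : Integrable f leb) (hg : Integrable g leb) (hh : Integrable h leb)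
    (a b c : ℝ) : ∫ u, (a * f u + b * g u + c * h u) ∂leb =
      a * ∫ u, f u ∂leb + b * ∫ u, g u ∂leb + c * ∫ u, h u ∂leb := by
  have e1 : ∫ u, (a * f u + b * g u + c * h u) ∂leb =
      (∫ u, (a * f u + b * g u) ∂leb) + ∫ u, c * h u ∂leb :=
    integral_add ((hf.const_mul a).add (hg.const_mul b)) (hh.const_mul c)
  have e2 : ∫ u, (a * f u + b * g u) ∂leb = (∫ u, a * f u ∂leb) + ∫ u, b * g u ∂leb :=
    integral_add (hf.const_mul a) (hg.const_mul b)
  rw [e1, e2, integral_const_mul, integral_const_mul, integral_const_mul]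

/-- the partner of an index -/
def pr (a : Ix mm) : Ix mm := (a.1, !a.2)

lemma pr_ne (a : Ix mm) : pr a ≠ a := by
  intro h
  have : (!a.2) = a.2 := congrArg Prod.snd h
  cases h2 : a.2 <;> simp [h2] at this

lemma eq_pr {a b : Ix mm} (h : b ≠ a) (h1 : b.1 = a.1) : b = pr a := by
  rcases a with ⟨A, s⟩
  rcases b with ⟨B, t⟩
  simp only at h1
  subst h1
  unfold pr
  cases s <;> cases t
  · exact absurd rfl h
  · rfl
  · rfl
  · exact absurd rfl h

lemma pm_partner {q : ℝ} (hq : 0 < q) (a : Ix mm) : pm q a {pt q (pr a)} = (1999 : ℝ≥0∞)⁻¹ := by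
  unfold pm
  rw [Measure.smul_apply, Measure.finsetSum_apply, Finset.sum_eq_single (pr a)]
  · rw [Measure.dirac_apply' _ (measurableSet_singleton _), indicator_of_mem (mem_singleton _)]
    simp
  · intro b _ hb
    rw [Measure.dirac_apply' _ (measurableSet_singleton _), indicator_of_notMem]
    intro h
    exact hb (pt_inj hq (mem_singleton_iff.1 h))
  · intro h
    exact absurd (Finset.mem_erase.2 ⟨pr_ne a, Finset.mem_univ _⟩) h

lemma pm_supp (q : ℝ) (a : Ix mm) : pm q a {x | ∃ b, b ≠ a ∧ x = pt q b}ᶜ = 0 := by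
  have hfin : {x : ℝ | ∃ b, b ≠ a ∧ x = pt q b}.Finite := by
    refine (Set.finite_range (pt q)).subset ?_
    rintro x ⟨b, -, rfl⟩
    exact mem_range_self b
  unfold pm
  rw [Measure.smul_apply, Measure.finsetSum_apply, Finset.sum_eq_zero]
  · simp
  · intro b hb
    rw [Measure.dirac_apply' _ hfin.measurableSet.compl, indicator_of_notMem]
    intro h
    exact h ⟨b, (Finset.mem_erase.1 hb).1, rfl⟩

/-- the uniform laws as probability measures -/
noncomputable def PM (q : ℝ) (a : Ix mm) : ProbabilityMeasure ℝ := ⟨pm q a, pm_prob q a⟩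

section

variable {q : ℝ} {X : ProbabilityMeasure ℝ → ℝ → ℝ} {r : ℝ≥0}

/-- the costs of the pairs -/
noncomputable def ff (q : ℝ) (X : ProbabilityMeasure ℝ → ℝ → ℝ) (a b : Ix mm) (u : ℝ) : ℝ :=
  |X (PM q a) u - X (PM q b) u| ^ q

lemma ff_nonneg (a b : Ix mm) (u : ℝ) : 0 ≤ ff q X a b u := by unfold ff; positivity

lemma ff_int (hq : 0 < q) (hq2 : (2000 : ℝ) ^ q ≤ 1.01) (hX : IsCoupling X)
    (hr : ∀ P Q : ProbabilityMeasure ℝ,
      ∫⁻ u, ENNReal.ofReal (|X P u - X Q u| ^ q) ∂leb ≤ r * Cstar q P Q) {a b : Ix mm}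
    (hab : a ≠ b) :
    Integrable (ff q X a b) leb ∧ ∫ u, ff q X a b u ∂leb ≤ r * (1.01 * uu a b / 1999) := by
  have h1 : ∫⁻ u, ENNReal.ofReal (ff q X a b u) ∂leb ≤
      ENNReal.ofReal (r * (1.01 * uu a b / 1999)) := by
    refine (hr (PM q a) (PM q b)).trans ?_
    have h2 : Cstar q (PM q a) (PM q b) ≤ ENNReal.ofReal (1.01 * uu a b / 1999) := by
      refine (Cstar_le hq hab).trans ?_
      have h3 : (1999 : ℝ≥0∞)⁻¹ = ENNReal.ofReal (1999⁻¹) := by
        rw [ENNReal.ofReal_inv_of_pos (by norm_num)]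
        simp
      rw [h3, ← ENNReal.ofReal_mul (by norm_num)]
      refine ENNReal.ofReal_le_ofReal ?_
      have := le_uu hq hq2 a b
      rw [div_eq_inv_mul]
      gcongr
    calc (r : ℝ≥0∞) * Cstar q (PM q a) (PM q b) ≤ r * ENNReal.ofReal (1.01 * uu a b / 1999) := by
          gcongr
      _ = ENNReal.ofReal (r * (1.01 * uu a b / 1999)) := by
          rw [ENNReal.ofReal_mul r.coe_nonneg, ENNReal.ofReal_coe_nnreal]
  have hm : AEMeasurable (ff q X a b) leb := by
    unfold ff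
    have g1 := hX.meas (PM q a)
    have g2 := hX.meas (PM q b)
    exact ((g1.sub g2).abs).pow_const q
  have h0 : 0 ≤ᵐ[leb] ff q X a b := Filter.Eventually.of_forall fun u => ff_nonneg a b u
  have hi : Integrable (ff q X a b) leb := by
    refine ⟨hm.aestronglyMeasurable, ?_⟩
    rw [hasFiniteIntegral_iff_ofReal h0]
    exact h1.trans_lt ENNReal.ofReal_lt_top
  refine ⟨hi, ?_⟩
  rw [← ofReal_integral_eq_lintegral_ofReal hi h0] at h1
  have h3 : 0 ≤ (r : ℝ) * (1.01 * uu a b / 1999) := by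
    have := uu_nonneg a b
    positivity
  exact (ENNReal.ofReal_le_ofReal_iff h3).1 h1

/-- the indicator of staying in the block -/
noncomputable def gg (q : ℝ) (X : ProbabilityMeasure ℝ → ℝ → ℝ) (a : Ix mm) (u : ℝ) : ℝ :=
  ({pt q (pr a)} : Set ℝ).indicator (fun _ => (1 : ℝ)) (X (PM q a) u)

lemma gg_int (hq : 0 < q) (hX : IsCoupling X) (a : Ix mm) :
    Integrable (gg q X a) leb ∧ ∫ u, gg q X a u ∂leb = 1 / 1999 := by
  have hms : MeasurableSet ({pt q (pr a)} : Set ℝ) := measurableSet_singleton _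
  have hg : Integrable (({pt q (pr a)} : Set ℝ).indicator (fun _ => (1 : ℝ))) (pm q a) :=
    (integrable_const 1).indicator hms
  have hlaw : leb.map (X (PM q a)) = pm q a := hX.law (PM q a)
  have h1 : Integrable (gg q X a) leb := by
    have h2 : Integrable (({pt q (pr a)} : Set ℝ).indicator (fun _ => (1 : ℝ)))
        (leb.map (X (PM q a))) := by rw [hlaw]; exact hg
    exact h2.comp_aemeasurable (hX.meas _)
  refine ⟨h1, ?_⟩
  have h2 : ∫ u, gg q X a u ∂leb =
      ∫ x, ({pt q (pr a)} : Set ℝ).indicator (fun _ => (1 : ℝ)) x ∂(leb.map (X (PM q a))) := by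
    rw [integral_map (hX.meas _) (by rw [hlaw]; exact hg.aestronglyMeasurable)]
    rfl
  rw [h2, hlaw, integral_indicator_const _ hms, measureReal_def, pm_partner hq]
  simp

/-- the pointwise inequality along the coupling -/
lemma pointwise (hq : 0 < q) (hX : IsCoupling X) : ∀ᵐ u ∂leb,
    1.978 ≤ 1 / 2 * ∑ B : Fin mm, ff q X (B, false) (B, true) u +
      1 / 4000 * (∑ a : Ix mm, ∑ b : Ix mm, if a.1 ≠ b.1 then ff q X a b u else 0) +
      5 / 8 * ∑ a : Ix mm, gg q X a u := by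
  have h1 : ∀ᵐ u ∂leb, ∀ a : Ix mm, ∃ b, b ≠ a ∧ X (PM q a) u = pt q b := by
    rw [ae_all_iff]
    intro a
    have h2 : ∀ᵐ x ∂(leb.map (X (PM q a))), ∃ b, b ≠ a ∧ x = pt q b := by
      rw [hX.law (PM q a)]
      exact pm_supp q a
    exact ae_of_ae_map (hX.meas _) h2
  filter_upwards [h1] with u hu
  choose x hx1 hx2 using hu
  have hff : ∀ a b, uu (x a) (x b) ≤ ff q X a b u := by
    intro a b
    unfold ff
    rw [hx2 a, hx2 b]
    exact uu_le hq _ _
  have h2 := key mm_eq x hx1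
  refine h2.trans ?_
  have hS : SS x ≤ ∑ B : Fin mm, ff q X (B, false) (B, true) u :=
    Finset.sum_le_sum fun B _ => hff _ _
  have hD : DD x ≤ ∑ a : Ix mm, ∑ b : Ix mm, if a.1 ≠ b.1 then ff q X a b u else 0 := by
    refine Finset.sum_le_sum fun a _ => Finset.sum_le_sum fun b _ => ?_
    split_ifs
    · exact hff _ _
    · exact le_rfl
  have hN : NN x ≤ ∑ a : Ix mm, gg q X a u := by
    refine Finset.sum_le_sum fun a _ => ?_
    unfold gg
    split_ifs with h
    · rw [indicator_of_mem]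
      rw [hx2 a, eq_pr (hx1 a) h]
      exact mem_singleton _
    · exact indicator_nonneg (fun _ _ => zero_le_one) _
  linarith

/-- **the lower bound for one coupling** -/
theorem lower (hq : 0 < q) (hq2 : (2000 : ℝ) ^ q ≤ 1.01) (hX : IsCoupling X)
    (hr : ∀ P Q : ProbabilityMeasure ℝ,
      ∫⁻ u, ENNReal.ofReal (|X P u - X Q u| ^ q) ∂leb ≤ r * Cstar q P Q) : (21 / 10 : ℝ) ≤ r := by
  have hI1 : ∀ B : Fin mm, Integrable (ff q X (B, false) (B, true)) leb ∧
      ∫ u, ff q X (B, false) (B, true) u ∂leb ≤ r * (1.01 * (1 / 2) / 1999) := by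
    intro B
    have hne : ((B, false) : Ix mm) ≠ (B, true) := by simp
    have := ff_int hq hq2 hX hr hne
    rwa [uu_half hne rfl] at this
  have hI2 : ∀ a b : Ix mm, Integrable (fun u => if a.1 ≠ b.1 then ff q X a b u else 0) leb ∧
      ∫ u, (if a.1 ≠ b.1 then ff q X a b u else 0) ∂leb ≤ if a.1 ≠ b.1 then
        (r : ℝ) * (1.01 / 1999) else 0 := by
    intro a b
    by_cases h : a.1 ≠ b.1
    · simp only [if_pos h]
      have hne : a ≠ b := fun h' => h (by rw [h'])
      have := ff_int hq hq2 hX hr hne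
      rwa [uu_one h, mul_one] at this
    · simp only [if_neg h]
      exact ⟨integrable_zero _ _ _, by simp⟩
  have hI3 := fun a : Ix mm => gg_int (X := X) hq hX a
  have e1 : Integrable (fun u => ∑ B : Fin mm, ff q X (B, false) (B, true) u) leb :=
    integrable_finsetSum _ fun B _ => (hI1 B).1
  have e2 : Integrable (fun u => ∑ a : Ix mm, ∑ b : Ix mm,
      if a.1 ≠ b.1 then ff q X a b u else 0) leb :=
    integrable_finsetSum _ fun a _ => integrable_finsetSum _ fun b _ => (hI2 a b).1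
  have e3 : Integrable (fun u => ∑ a : Ix mm, gg q X a u) leb :=
    integrable_finsetSum _ fun a _ => (hI3 a).1
  have h1 : (1.978 : ℝ) ≤ ∫ u, (1 / 2 * ∑ B : Fin mm, ff q X (B, false) (B, true) u +
      1 / 4000 * (∑ a : Ix mm, ∑ b : Ix mm, if a.1 ≠ b.1 then ff q X a b u else 0) +
      5 / 8 * ∑ a : Ix mm, gg q X a u) ∂leb := by
    have h2 : ∫ _u, (1.978 : ℝ) ∂leb = 1.978 := by simp
    rw [← h2]
    exact integral_mono_ae (integrable_const _)
      (((e1.const_mul _).add (e2.const_mul _)).add (e3.const_mul _)) (pointwise hq hX)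
  have h1' : (1.978 : ℝ) ≤ 1 / 2 * ∫ u, (∑ B : Fin mm, ff q X (B, false) (B, true) u) ∂leb +
      1 / 4000 * (∫ u, (∑ a : Ix mm, ∑ b : Ix mm, if a.1 ≠ b.1 then ff q X a b u else 0) ∂leb) +
      5 / 8 * ∫ u, (∑ a : Ix mm, gg q X a u) ∂leb := by
    exact h1.trans (le_of_eq (int3 e1 e2 e3 _ _ _))
  clear h1
  have h1 := h1'
  rw [integral_finsetSum _ fun B _ => (hI1 B).1,
    integral_finsetSum _ fun a _ => integrable_finsetSum _ fun b _ => (hI2 a b).1,
    integral_finsetSum _ fun a _ => (hI3 a).1] at h1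
  have s1 : ∑ B : Fin mm, ∫ u, ff q X (B, false) (B, true) u ∂leb ≤
      1000 * (r * (1.01 * (1 / 2) / 1999)) := by
    refine (Finset.sum_le_sum fun B _ => (hI1 B).2).trans (le_of_eq ?_)
    rw [Finset.sum_const, Finset.card_univ, Fintype.card_fin, mm_eq, nsmul_eq_mul]
    norm_num
  have s2 : ∑ a : Ix mm, ∫ u, (∑ b : Ix mm, if a.1 ≠ b.1 then ff q X a b u else 0) ∂leb ≤
      2000 * (1998 * (r * (1.01 / 1999))) := by
    have h3 : ∀ a : Ix mm, ∫ u, (∑ b : Ix mm, if a.1 ≠ b.1 then ff q X a b u else 0) ∂leb ≤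
        1998 * (r * (1.01 / 1999)) := by
      intro a
      rw [integral_finsetSum _ fun b _ => (hI2 a b).1]
      refine (Finset.sum_le_sum fun b _ => (hI2 a b).2).trans (le_of_eq ?_)
      have h4 : ∀ b : Ix mm, (if a.1 ≠ b.1 then (r : ℝ) * (1.01 / 1999) else 0) =
          r * (1.01 / 1999) - (if b.1 = a.1 then (r : ℝ) * (1.01 / 1999) else 0) := by
        intro b
        by_cases h5 : a.1 = b.1
        · rw [if_neg (not_not.2 h5), if_pos h5.symm]; ring
        · rw [if_pos h5, if_neg (Ne.symm h5)]; ring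
      rw [Finset.sum_congr rfl fun b _ => h4 b, Finset.sum_sub_distrib, ← Finset.sum_filter,
        Finset.sum_const, Finset.sum_const, card_block, card_ix, nsmul_eq_mul, nsmul_eq_mul]
      push_cast
      ring
    refine (Finset.sum_le_sum fun a _ => h3 a).trans (le_of_eq ?_)
    rw [Finset.sum_const, card_ix, nsmul_eq_mul]
    push_cast
    ring
  have s3 : ∑ a : Ix mm, ∫ u, gg q X a u ∂leb = 2000 / 1999 := by
    rw [Finset.sum_congr rfl fun a _ => (hI3 a).2, Finset.sum_const, card_ix, nsmul_eq_mul]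
    push_cast
    ring
  rw [s3] at h1
  have hr0 : (0 : ℝ) ≤ r := r.coe_nonneg
  linarith

end

/-- **Q2 fails for all small `q`** -/
theorem main : ∃ q₀ : ℝ, 0 < q₀ ∧ q₀ ≤ 1 ∧ ∀ q : ℝ, 0 < q → q < q₀ →
    (21 / 10 : ℝ≥0∞) ≤ optRatio q := by
  have h1 : Filter.Tendsto (fun q : ℝ => (2000 : ℝ) ^ q) (nhds 0) (nhds ((2000 : ℝ) ^ (0 : ℝ))) :=
    (Real.continuous_const_rpow (by norm_num)).tendsto 0
  rw [Real.rpow_zero] at h1
  have h2 := h1.eventually_lt_const (show (1 : ℝ) < 1.01 by norm_num)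
  obtain ⟨e, he, he2⟩ := Metric.eventually_nhds_iff.1 h2
  refine ⟨min e 1, lt_min he one_pos, min_le_right _ _, fun q hq hqe => ?_⟩
  have hq2 : (2000 : ℝ) ^ q ≤ 1.01 := by
    refine (he2 ?_).le
    rw [Real.dist_eq, sub_zero, abs_of_pos hq]
    exact lt_of_lt_of_le hqe (min_le_left _ _)
  unfold optRatio
  refine le_iInf₂ fun X hX => ?_
  unfold ratio
  refine le_iInf₂ fun r hr => ?_
  have h3 := lower hq hq2 hX hr.2
  have h4 : ENNReal.ofReal (21 / 10) ≤ (r : ℝ≥0∞) := by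
    rw [← ENNReal.ofReal_coe_nnreal]
    exact ENNReal.ofReal_le_ofReal h3
  refine le_trans (le_of_eq ?_) h4
  rw [ENNReal.ofReal_div_of_pos (by norm_num)]
  simp

end Pool.Agent.R972.PC
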